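import Pool.Agent.PQP.StmtsZ
import Pool.Agent.PQP.StmtsE

/-!
# Mini squad NGP (MP_5f32e0_gt): sign changing functions, far perturbations in a symmetry class

`P` is a subspace of `ℝ^5`, `Inv P f`: `f` is invariant under the reflection `2 pr_P - 1`.  All rows are
versions of rows of `Pool/Agent/PQP/StmtsE.lean` in which the Hessian `T` is only injective on the
complement of `p` IN `P`.
-/

set_option autoImplicit false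

open scoped InnerProductSpace Topology ContDiff Manifold
open MeasureTheory Filter Set

noncomputable section

namespace Pool.Agent.NGP

open Pool.Agent.Helper42_Paneitz Pool.Agent.Helper82_Vir Pool.Agent.FLX Pool.Agent.PQP

/-- the fixed geometric data without injectivity -/
structure Geo0 (p : S4) (T : E5 →L[ℝ] E5) (ρ : ℝ) : Prop where
  pos : 0 < ρ
  le : ρ ≤ 1
  symm : ∀ u v : E5, ⟪T u, v⟫_ℝ = ⟪u, T v⟫_ℝ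
  zero : T (p : E5) = 0

/-- NEA with `Geo0` -/
def Nea0Stmt : Prop := ∃ C : ℝ, 0 ≤ C ∧ ∀ (p : S4) (T : E5 →L[ℝ] E5) (ρ : ℝ) (q : S4 → ℝ)
  (k B M : ℝ), Geo0 p T ρ → Con p T ρ q k B M → ∀ (w : S4) (l : ℝ), 0 ≤ l → l < 1 →
  ‖∫ y in {y : S4 | ‖(mob (l • (w : E5)) y : E5) - (p : E5)‖ < ρ},
      (q (mob (l • (w : E5)) y) + k * ⟪T (mob (l • (w : E5)) y : E5),
        (mob (l • (w : E5)) y : E5)⟫_ℝ) • (y : E5) ∂sig‖ ≤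
    C * B * ((√(1 - l ^ 2)) ^ 3 + ‖(w : E5) - (p : E5)‖ ^ 3)

/-- XPN with `Geo0` -/
def Xpn0Stmt : Prop := ∃ c C₀ : ℝ, 0 < c ∧ ∀ (p : S4) (T : E5 →L[ℝ] E5) (ρ : ℝ), Geo0 p T ρ →
  ∃ C l₀ : ℝ, 0 ≤ C ∧ 1 / 2 ≤ l₀ ∧ l₀ < 1 ∧ ∀ (q : S4 → ℝ) (k B M : ℝ), Con p T ρ q k B M →
  ∀ (w : S4) (l σ d : ℝ), l₀ ≤ l → l < 1 → σ = √(1 - l ^ 2) → d = ‖(w : E5) - (p : E5)‖ →
  d ≤ ρ / 2 → ∃ j₁ j₂ : ℝ, c ≤ j₁ ∧ j₁ ≤ C₀ ∧ c ≤ j₂ ∧ j₂ ≤ C₀ ∧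
    |(∫ y, q (mob (l • (w : E5)) y) * ⟪(w : E5), (y : E5)⟫_ℝ ∂sig) -
        (k * tr5 T * j₁ * σ ^ 2 - σ ^ 4 * GG p ρ q)| ≤
      C * (k * d ^ 2 * σ ^ 2 + B * (σ ^ 3 + d ^ 3) + M * σ ^ 4 * (d + σ ^ 2) + k * σ ^ 4) ∧
    ∀ e : E5, ⟪(w : E5), e⟫_ℝ = 0 → ‖e‖ ≤ 1 →
      |(∫ y, q (mob (l • (w : E5)) y) * ⟪e, (y : E5)⟫_ℝ ∂sig) +
          k * j₂ * σ * ⟪T (w : E5), e⟫_ℝ| ≤
        C * (B * (σ ^ 3 + d ^ 3) + M * σ ^ 5 + k * σ ^ 4)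

/-- SBQ with `Geo0` -/
def Sbq0Stmt : Prop := ∀ (p : S4) (T : E5 →L[ℝ] E5) (ρ : ℝ), Geo0 p T ρ → ∃ C : ℝ, 0 ≤ C ∧
  ∀ (q : S4 → ℝ) (k B M : ℝ), Con p T ρ q k B M → ∀ (w : S4) (l σ d : ℝ), 1 / 2 ≤ l → l < 1 →
  σ = √(1 - l ^ 2) → d = ‖(w : E5) - (p : E5)‖ → d ≤ ρ / 2 →
  SB (fun y => q (mob (l • (w : E5)) y))
    (C * (k * (σ ^ 2 + d ^ 2) + B * (σ ^ 3 + d ^ 3) + M * σ ^ (10 / 3 : ℝ)))

/-- RDI: the reduction RED together with the invariance of `β`.  Proof: Helper22_PQP/RED.lean, where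
`β b = ∫ Nn (q b) (H b) y • y`, `q b = q ∘ mob b`, and `H b` is the fixed point from SBF.  New:
uniqueness of the fixed point `h` (continuous, `|h| ≤ R₁`, `SB (q b) τ`, `τ ≤ τ₁`): `hcon` in
Helper50_PQP/SBF.lean and `dist_bound` (Helper40_FLX/Fix.lean) with error `0`; for `b ∈ P` and `Inv P q`
the function `x ↦ H b (act P.reflection x)` is also a fixed point (see `inv_K`, `inv_Aop`,
`integral_refl`, `hmob` in Helper53_PQP/INV.lean; here for `h ∘ act P.reflection`, i.e.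
`K (f ∘ act R) = K f ∘ act R`), so `Inv P (H b)`, `Inv P (Nn (q b) (H b))`, and `mem_of_inv`. -/
def RdiStmt : Prop :=
  ∃ τ₀ C : ℝ, 0 < τ₀ ∧ 0 < C ∧ ∀ (S : Set E5) (q : S4 → ℝ) (τ : ℝ), (∀ b ∈ S, ‖b‖ < 1) →
    Continuous q → 0 ≤ τ → τ ≤ τ₀ → (∀ b ∈ S, SB (fun x => q (mob b x)) τ) →
    ∃ β : E5 → E5, ContinuousOn β S ∧
      (∀ b ∈ S, ‖β b - ∫ y : S4, q (mob b y) • (y : E5) ∂sig‖ ≤ C * τ ^ 2) ∧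
      (∀ b ∈ S, β b = 0 → ∃ w : S4 → ℝ, IE (fun x => 6 + q x) w ∧
        ∀ y, |w (mob b y) + Real.log (Jac b y) / 4| ≤ C * τ) ∧
      ∀ P : Submodule ℝ E5, Inv P q → ∀ b ∈ S, b ∈ P → β b ∈ P

/-- BXI: BXA with `Geo0` and the invariance of `β` -/
def BxiStmt : Prop := ∃ c C₀ : ℝ, 0 < c ∧ ∀ (p : S4) (T : E5 →L[ℝ] E5) (ρ : ℝ), Geo0 p T ρ →
  ∀ a : ℝ, 0 < a → a < 1 → ∃ s₀ C : ℝ, 0 < s₀ ∧ s₀ ≤ 1 ∧ s₀ ≤ a / 2 ∧ 0 ≤ C ∧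
  ∀ (q : S4 → ℝ) (k B M s : ℝ), Con p T ρ q k B M → 0 < s → s ≤ s₀ →
  s ^ 2 * |GG p ρ q| = k → k ≤ s ^ (-(1 / 24) : ℝ) → B ≤ s ^ (-(1 / 24) : ℝ) →
  M ≤ s ^ (-(1 / 24) : ℝ) * |GG p ρ q| →
  ∃ β : E5 → E5,
    ContinuousOn β {b | ∃ (σ : ℝ) (v : E5), a * s ≤ σ ∧ σ ≤ s / a ∧ ⟪(p : E5), v⟫_ℝ = 0 ∧
      ‖v‖ ≤ s ^ (3 / 4 : ℝ) ∧ b = bv p σ v} ∧
    ∀ (σ : ℝ) (v : E5), a * s ≤ σ → σ ≤ s / a → ⟪(p : E5), v⟫_ℝ = 0 → ‖v‖ ≤ s ^ (3 / 4 : ℝ) →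
      (β (bv p σ v) = 0 → ∃ w : S4 → ℝ, IE (fun x => 6 + q x) w) ∧
      (∀ P : Submodule ℝ E5, Inv P q → (p : E5) ∈ P → v ∈ P → β (bv p σ v) ∈ P) ∧
      ∃ j₁ j₂ : ℝ, c ≤ j₁ ∧ j₁ ≤ C₀ ∧ c ≤ j₂ ∧ j₂ ≤ C₀ ∧
        |⟪wv p v, β (bv p σ v)⟫_ℝ - (k * tr5 T * j₁ * σ ^ 2 - σ ^ 4 * GG p ρ q)| ≤
          C * k * s ^ (13 / 6 : ℝ) ∧
        ∀ e : E5, ⟪wv p v, e⟫_ℝ = 0 → ‖e‖ ≤ 1 →
          |⟪e, β (bv p σ v)⟫_ℝ + k * j₂ * σ * ⟪T (wv p v), e⟫_ℝ| ≤ C * k * s ^ (13 / 6 : ℝ)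

/-- EXI: existence for a concentrated invariant curvature function.  Proof: Helper46_PQP/Exa.lean with
these changes.  `T₁ = T ∘ pr_P + (1 - pr_P)` is symmetric (`T` maps `P` to `P`, hence `P^⊥` to `P^⊥`), kills
`p` and is injective on `p^⊥`, so `Geo p T₁ ρ` and `exL p T₁ ρ` give `L`; `L` maps `P` to `P`: for `u ∈ P`,
`y = L u`, one has `T₁ y = u - <p,u> p` (put `z = T₁ y - u + <p,u> p`: `L z = 0`, `<p, z> = 0`), and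
`T₁ y = T y_P + y_⊥`, so `y_⊥ = 0`.  For `v ⊥ p` (not in `P`) put `v₁ = pr_P v` (`⊥ p`), `w₁ = wv p v₁`,
`b₁ = bv p σ v₁`, `R σ v = ε <w₁, β b₁>`, `V σ v = (θ/(k σ)) • pr_P (L (β b₁ - <w₁, β b₁> w₁)) - (v - v₁)`.
Then `v + V = pr_P (v₁ + (θ/(k σ)) • L (...))`, whose norm is estimated by `tang` with `T₁`
(`T₁ w₁ = T w₁`).  PMI gives a zero: the component of `V = 0` in `P^⊥` gives `v = v₁ ∈ P`; then `β b₁ ∈ P`,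
`L (...) ∈ P`, so `L (...) = 0` and the end of the old proof applies. -/
def ExiStmt : Prop := ∀ (P : Submodule ℝ E5) (p : S4) (T : E5 →L[ℝ] E5) (ρ : ℝ), Geo0 p T ρ →
  (p : E5) ∈ P → (∀ v ∈ P, T v ∈ P) → (∀ v ∈ P, ⟪(p : E5), v⟫_ℝ = 0 → T v = 0 → v = 0) →
  tr5 T ≠ 0 →
  ∃ s₀ : ℝ, 0 < s₀ ∧ ∀ (q : S4 → ℝ) (k B M s : ℝ), Con p T ρ q k B M → Inv P q → 0 < s → s ≤ s₀ →
  0 < tr5 T * GG p ρ q → s ^ 2 * |GG p ρ q| = k → k ≤ s ^ (-(1 / 24) : ℝ) →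
  B ≤ s ^ (-(1 / 24) : ℝ) → M ≤ s ^ (-(1 / 24) : ℝ) * |GG p ρ q| →
  ∃ w : S4 → ℝ, IE (fun x => 6 + q x) w

/-- nondegenerate critical point of the restriction to the great sphere in `P` -/
def NdP (P : Submodule ℝ E5) (f : S4 → ℝ) (p : S4) : Prop :=
  (∀ v : E5, dd f p v = 0) ∧ ∀ v ∈ P, ⟪(p : E5), v⟫_ℝ = 0 →
    (∀ w ∈ P, ⟪(p : E5), w⟫_ℝ = 0 → hess f p v w = 0) → v = 0

/-- TAI: Taylor formula.  Proof: Helper51_PQP/TA3.lean (`T = opOf B`, `<T u, v> = hess f p u v`); new: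
`T` commutes with `R = P.reflection` because `f ∘ act R = f` and `R p = p` (second derivative of the
radial extension: `radialExt f ∘ R = radialExt f`, so `hess f p (R u) (R v) = hess f p u v`), hence maps
`P` to itself (`Submodule.reflection_eq_self_iff`); if `v ∈ P`, `v ⊥ p` and `T v = 0` then
`hess f p v w = 0` for all `w`. -/
def TaiStmt : Prop := ∀ (P : Submodule ℝ E5) (f : S4 → ℝ) (p : S4), Sm f → Inv P f →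
  (p : E5) ∈ P → NdP P f p →
  ∃ (T : E5 →L[ℝ] E5) (C : ℝ), 0 ≤ C ∧ (∀ u v : E5, ⟪T u, v⟫_ℝ = ⟪u, T v⟫_ℝ) ∧ T (p : E5) = 0 ∧
    (∀ v ∈ P, T v ∈ P) ∧
    (∀ v ∈ P, ⟪(p : E5), v⟫_ℝ = 0 → T v = 0 → v = 0) ∧ tr5 T = sphLaplacian f p ∧
    ∀ z : S4, |f z - f p - 1 / 2 * ⟪T (z : E5), (z : E5)⟫_ℝ| ≤ C * ‖(z : E5) - (p : E5)‖ ^ 3

/-- SRI: large perturbation away from a critical point, invariant functions.  Proof: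
Helper4_PQP/Srb.lean with EXI, TAI. -/
def SriStmt : Prop := ∀ (P : Submodule ℝ E5) (Q₀ R : S4 → ℝ) (p : S4) (U : Set S4), Sm Q₀ →
  Sm R → Inv P Q₀ → Inv P R → (p : E5) ∈ P → NdP P Q₀ p → 0 < Q₀ p → U ∈ 𝓝 p →
  (∀ x ∈ U, R x = 0) →
  sphLaplacian Q₀ p * ∫ z, R z / (1 - ⟪(p : E5), (z : E5)⟫_ℝ) ^ 4 ∂sig < 0 →
  ∃ t₀ : ℝ, ∀ t : ℝ, t₀ ≤ t → IsPaneitzCurvature (fun x => Q₀ x + t * R x)

/-- ZNL: zonal functions, the local data.  `Q x = q (x_4)`; `p` on the circle of `P2`: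
(a) `0 < φ < π`, `q' (cos φ) = 0`, `q'' (cos φ) > 0`: `NdP P2 Q (cir φ)` and
`Δ Q = (1 - c²) q''(c) > 0`; (b) `q' (1) < 0`: `NdP P2 Q (pt 4)`, `Δ Q (pt 4) = - 4 q'(1) > 0`.
`hess Q x v w` for tangent `v, w`: `q''(c) v_4 w_4 - q'(c) c <v, w>` (`c = x_4`).  Compare ZEX
(`sphLaplacian_zonal`, `dd_coord`). -/
def ZnlStmt : Prop := ∀ q : ℝ → ℝ, ContDiff ℝ ∞ q →
  Sm (fun x : S4 => q ((x : E5) 4)) ∧ Inv P2 (fun x : S4 => q ((x : E5) 4)) ∧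
  (∀ φ : ℝ, 0 < φ → φ < Real.pi → deriv q (Real.cos φ) = 0 → 0 < deriv (deriv q) (Real.cos φ) →
    (cir φ : E5) ∈ P2 ∧ NdP P2 (fun x : S4 => q ((x : E5) 4)) (cir φ) ∧
      0 < sphLaplacian (fun x : S4 => q ((x : E5) 4)) (cir φ)) ∧
  (deriv q 1 < 0 → ((pt 4 : S4) : E5) ∈ P2 ∧ NdP P2 (fun x : S4 => q ((x : E5) 4)) (pt 4) ∧
      0 < sphLaplacian (fun x : S4 => q ((x : E5) 4)) (pt 4))

/-- ZNE: zonal functions with a far negative part, existence.  Uses SRI, ZNL.  `q' s₁ = 0`, `c < s₁ < 1`.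
If `q'(1) < 0`: `p = pt 4`.  If `q'(1) > 0` take a minimum point `s₂` of `q` on `[s₁, 1]`: it is not `1`;
if `s₂ = s₁` then `q''(s₁) ≥ 0`, so `> 0`; if `s₁ < s₂ < 1` then `q'(s₂) = 0`, `q''(s₂) ≥ 0`, so `> 0`.
`p = cir (arccos s₂)`.  `R = 0` on the open set `{x_4 > c}`, `∫ R / (1 - <p, z>)⁴ < 0` because `R ≤ 0` is
continuous and not zero. -/
def ZneStmt : Prop := ∀ (q : ℝ → ℝ) (c : ℝ) (R : S4 → ℝ), ContDiff ℝ ∞ q → -1 < c → c < 1 →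
  (∀ s : ℝ, c < s → s ≤ 1 → 0 < q s) → deriv q 1 ≠ 0 →
  (∀ s : ℝ, c < s → s < 1 → deriv q s = 0 → deriv (deriv q) s ≠ 0) →
  (∃ s : ℝ, c < s ∧ s < 1 ∧ deriv q s = 0) →
  Sm R → Inv P2 R → (∀ x, R x ≤ 0) → (∀ x : S4, c ≤ (x : E5) 4 → R x = 0) → (∃ x, R x ≠ 0) →
  ∃ t₀ : ℝ, ∀ t : ℝ, t₀ ≤ t → IsPaneitzCurvature (fun x : S4 => q ((x : E5) 4) + t * R x)

/-- ZNN: zonal positive part, monotone: non-existence for every negative part.  Uses `two_field`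
(Helper59_Vir/Two.lean) with `a = ee 4`, `A = 0`, `b = 0`, `B = 0`: `cf a 0 x = a - <a,x> x`,
`dd Q x (cf a 0 x) = q'(x_4) (1 - x_4²)` on the open set `{x_4 > c}` (there `Q` agrees with the zonal
function near `x`).  `q' > 0` on `(c, 1)`: `q'` has no zero there and `q(c) ≤ 0 < q(1)`.  `Q ≤ 0` for
`x_4 ≤ c`, so `{Q > 0} = {x_4 > c}`. -/
def ZnnStmt : Prop := ∀ (q : ℝ → ℝ) (c : ℝ) (Q : S4 → ℝ), ContDiff ℝ ∞ q → -1 < c → c < 1 →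
  (∀ s : ℝ, c < s → s ≤ 1 → 0 < q s) → (∀ s : ℝ, c < s → s < 1 → deriv q s ≠ 0) →
  Sm Q → (∀ x : S4, c ≤ (x : E5) 4 → Q x = q ((x : E5) 4)) → (∀ x : S4, (x : E5) 4 ≤ c → Q x ≤ 0) →
  ¬ IsPaneitzCurvature Q

end Pool.Agent.NGP
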